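import Mathlib
import Pool.Agent.R89.UP.Sigma

/-!
# The `Σ`-Leopoldt conjecture for many primes at once, over fields of every degree

Let `d ≥ 1`, and let `a_1, …, a_d` be nonzero integers of different absolute values. For an integer
`t` let `F = ℚ(w)`, `∏ (w - a_i² t²) = 1`. There are a nonzero polynomial `Δ ∈ ℤ[T]` and `C₀` such
that for every `P` and all `t` outside a set of at most `C₀ + (2 d - 1)² P²` integers the
`Σ`-Leopoldt statement holds for ALL primes `p ≤ P` which do not divide `Δ(t)`, ALL totally complex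
quadratic extensions `K` of `F`, with `H = K(√w)`, ALL CM types `S` of `K` and both characters of
`Gal(H/K)` simultaneously.

Proof. The field `E = ℚ(√w)` is totally real of degree `2 d` and `H / E` is a CM extension. Leopoldt's
conjecture for `E` and these primes is the hand-in `ManyPrimes` of MP_5f2860_nt. The statement for
`H / K` follows as in the hand-in `RealQuadraticTwists` (for one fixed prime `p`).
-/

set_option autoImplicit false

namespace Pool.Agent.Results.MP_fc6b1e_nt.ManyPrimes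

open NumberField Pool.Agent.W289.SL

/-- Let `d ≥ 1` and let `a_1, …, a_d` be nonzero integers of different absolute values. There are a
nonzero polynomial `Δ ∈ ℤ[T]` and `C₀` such that for every `P` there is a set `S₀` of at most
`C₀ + (2 d - 1)² P²` integers such that for all `t ∉ S₀`: fields `F = ℚ(w)`, `∏ (w - a_i² t²) = 1`,
and totally complex quadratic extensions `K ⊇ F k`, `k` a given imaginary quadratic field, exist;
each such `F` is totally real of degree `d`, `w` is neither a square in `F` nor in any totally complex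
quadratic extension `K` of `F`; and for every such `K`, for `H = K(√w)`, the `Σ`-Leopoldt statement
holds for all primes `p ≤ P` not dividing `Δ(t)`, every CM type `S` of `K` with values in `ℂ_p` and
every character of `Gal(H/K)`. -/
theorem result (d : ℕ) (hd : 1 ≤ d) (a : Fin d → ℤ) (ha0 : ∀ i, a i ≠ 0)
    (ha : Function.Injective fun i => |a i|) :
    ∃ (Δ : Polynomial ℤ) (C₀ : ℕ), Δ ≠ 0 ∧ ∀ P : ℕ, ∃ S₀ : Finset ℤ,
      S₀.card ≤ C₀ + (2 * d - 1) ^ 2 * P ^ 2 ∧ ∀ t : ℤ, t ∉ S₀ →
      (∀ (k : Type) [Field k] [NumberField k] [IsTotallyComplex k], Module.finrank ℚ k = 2 →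
        ∃ (F K : Type) (_ : Field F) (_ : NumberField F) (_ : Field K) (_ : NumberField K)
          (_ : IsTotallyComplex K) (_ : Algebra F K) (_ : Algebra k K) (w : F),
          Module.finrank F K = 2 ∧ ∏ i, (w - ((a i * t : ℤ) : F) ^ 2) = 1 ∧
            IntermediateField.adjoin ℚ {w} = ⊤) ∧
      ∀ (F : Type) [Field F] [NumberField F] (w : F),
        ∏ i, (w - ((a i * t : ℤ) : F) ^ 2) = 1 → IntermediateField.adjoin ℚ {w} = ⊤ →
        Module.finrank ℚ F = d ∧ IsTotallyReal F ∧ ¬ IsSquare w ∧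
        ∀ (K : Type) [Field K] [NumberField K] [IsTotallyComplex K] [Algebra F K],
          Module.finrank F K = 2 → ¬ IsSquare (algebraMap F K w) ∧
          ∀ (H : Type) [Field H] [NumberField H] [Algebra K H] (θ : H),
            Module.finrank K H = 2 → θ ^ 2 = algebraMap K H (algebraMap F K w) →
            ∀ (p : ℕ) [Fact p.Prime], p ≤ P → ¬ (p : ℤ) ∣ Δ.eval t →
            ∀ S : Set (K →+* ℂ_[p]), IsCMType p F K S →
              ∀ χ : (H ≃ₐ[K] H) →* ℂ_[p]ˣ, SigmaLeopoldt p K H S χ := by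
  classical
  obtain ⟨Δ, C₀, hΔ, hmain⟩ := Pool.Agent.R89.UP.leo_many d hd a ha0 ha
  refine ⟨Δ, C₀ + 5, hΔ, fun P => ?_⟩
  obtain ⟨S, hS0, hS⟩ := hmain P
  refine ⟨S ∪ Finset.Icc (-2) 2, ?_, fun t ht => ?_⟩
  · refine (Finset.card_union_le _ _).trans ?_
    have h5 : (Finset.Icc (-2 : ℤ) 2).card = 5 := by
      rw [Int.card_Icc]
      rfl
    rw [h5]
    omega
  rw [Finset.mem_union, not_or] at ht
  have ht3 : 3 ≤ |t| := by
    by_contra hcon
    apply ht.2
    rw [Finset.mem_Icc, ← abs_le]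
    omega
  refine ⟨?_, ?_⟩
  · intro k _ _ _ hk
    obtain ⟨F, K, i1, i2, i3, i4, i5, i6, w, h1, h2, h3⟩ :=
      Pool.Agent.Y789.SG.exists_fields (k := k) hk d hd (fun i => (a i * t) ^ 2)
        (fun i j hij => (by norm_num : (2 : ℤ) ≤ 3).trans (Pool.Agent.R89.RQ.sq_gap a ha ht3 i j hij))
    refine ⟨F, K, i1, i2, i3, i4, NumberField.isTotallyComplex_of_algebra k K, i5, i6, w,
      h1, ?_, h3⟩
    rw [← h2]
    refine Finset.prod_congr rfl fun i _ => ?_
    push_cast
    rfl
  · intro F _ _ w hw hgen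
    obtain ⟨h1, h2⟩ := Pool.Agent.R89.RQ.F_deg hd a ha ht3 F w hw hgen
    refine ⟨h1, h2, Pool.Agent.R89.RQ.not_sq_F hd a ha0 ha ht3 F w hw hgen, ?_⟩
    intro K _ _ _ _ hFK
    refine ⟨Pool.Agent.R89.RQ.not_sq_K hd a ha0 ha ht3 F w hw hgen K hFK, ?_⟩
    intro H _ _ _ θ hKH hθ p _ hp hnd T hT χ
    exact Pool.Agent.R89.RQ.sigma_of hd a ha0 ha ht3 p (hS t ht.1 p hp hnd) F w hw hgen K hFK H θ
      hKH hθ T hT χ

end Pool.Agent.Results.MP_fc6b1e_nt.ManyPrimes
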