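import Mathlib
import Pool.Agent.R384.Z.SgL

/-!
# The `Σ`-Leopoldt conjecture at `2` over the `2`-extensions of `ℚ(√-d)` unramified outside `2`

Let `k = ℚ(√-d)`, where `d` is a prime `≡ 7 (mod 16)` or `d = p q` with primes `p ≡ 5`, `q ≡ 3`
`(mod 8)`. The prime `2` splits in `k`. Let `M / k` be a finite Galois extension of `2`-power degree,
unramified at all primes not above `2`, and let `k ⊆ K ⊆ H ⊆ M`, where `K` is a totally imaginary
quadratic extension of a totally real field `F`. We prove the `Σ`-Leopoldt conjecture for `p = 2`,
the CM types `Σ` of `K` induced from `k` and all characters of `Gal(H / K)`. There is no hypothesis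
on `H / k` apart from the one on its Galois closure: `H` is in general neither abelian over an
imaginary quadratic field nor Galois over `k`, and `F` may have any degree.

Proof. Let `v ∣ 2` be the place of `k` which does not define `Σ`. A nonzero relation between the
logarithms of the units at the places above the other place `v'` gives, after a descent from `ℂ_2`
to `ℤ_2`, a nonzero `2`-adic combination of units of `H` whose Kummer class in
`H¹(Gal(ℚ̄ / H), ℚ_2(1))` is trivial at all the places above `v'`, and unramified outside `2`. We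
show that every such class is trivial. By Shapiro's lemma this is a statement on classes of `k` with
coefficients in the representation induced from `H`, which has a unipotent reduction modulo `2`; by
devissage we come to the quadratic characters of `k` which are unramified outside `2` and trivial at
`v'`. There are none, by the genus theory of `k` and the law of quadratic reciprocity.
-/

set_option autoImplicit false

namespace Pool.Agent.Results.MP_fc6b1e_nt.TwoExtensionTowers

open NumberField Pool.Agent.W289.SL

/-- `d` is a prime `≡ 7 (mod 16)`, or the product of two primes `p ≡ 5` and `q ≡ 3 (mod 8)`. -/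
def InClass (d : ℕ) : Prop :=
  (d.Prime ∧ d % 16 = 7) ∨ ∃ p q : ℕ, p.Prime ∧ q.Prime ∧ p % 8 = 5 ∧ q % 8 = 3 ∧ d = p * q

/-- `H` is contained in a finite Galois extension `M` of `k` whose degree is a power of `2` and which
is unramified at all the primes not above `2`. -/
def InTwoExtension (k H : Type) [Field k] [NumberField k] [Field H] [Algebra k H] : Prop :=
  ∃ (M : Type) (_ : Field M) (_ : NumberField M) (_ : Algebra k M) (_ : Algebra H M)
    (_ : IsScalarTower k H M), IsGalois k M ∧ (∃ a : ℕ, Module.finrank k M = 2 ^ a) ∧
    ∀ P : Ideal (𝓞 M), P.IsPrime → P ≠ ⊥ → (2 : 𝓞 M) ∉ P → P.ramificationIdx (𝓞 k) = 1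

/-- The CM type `S` of `K` is induced from the subfield `k = ℚ(θ)`: all its elements have the same
restriction to `k`. -/
def InducedFrom {k K : Type} [Field k] [Field K] [Algebra k K] (θ : k) (S : Set (K →+* ℂ_[2])) :
    Prop :=
  ∀ σ ∈ S, ∀ σ' ∈ S, σ (algebraMap k K θ) = σ' (algebraMap k K θ)

/-- **Main result.** Let `d ∈ InClass`, `k = ℚ(θ)` with `θ² = -d`, `F` a totally real field, `K` a
quadratic extension of `F` which contains `k`, and `H` a finite extension of `K` which is contained
in a finite Galois extension of `k` of `2`-power degree, unramified outside `2`. Then the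
`Σ`-Leopoldt statement for `p = 2` holds for every CM type `S` of `K` induced from `k` and every
character `χ` of the automorphism group of `H / K`. -/
theorem result (d : ℕ) (hd : InClass d) (k : Type) [Field k] [NumberField k]
    (hk : Module.finrank ℚ k = 2) (θ : k) (hθ : θ ^ 2 = -(d : k))
    (F K H : Type) [Field F] [NumberField F] [IsTotallyReal F] [Field K] [NumberField K]
    [Algebra F K] (hFK : Module.finrank F K = 2) [Algebra k K]
    [Field H] [NumberField H] [Algebra K H] [Algebra k H] [IsScalarTower k K H]
    (hH : InTwoExtension k H) (S : Set (K →+* ℂ_[2])) (hS : IsCMType 2 F K S)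
    (hSk : InducedFrom θ S) (χ : (H ≃ₐ[K] H) →* ℂ_[2]ˣ) : SigmaLeopoldt 2 K H S χ := by
  obtain ⟨M, _, _, _, _, _, hM, ⟨a, ha⟩, hur⟩ := hH
  intro L hL x _ hx
  have hd0 : d ≠ 0 := Pool.Agent.Z384.Fld.ne_zero hd
  set η : K := algebraMap k K θ with hη
  have hη2 : η ^ 2 = -(d : K) := by rw [hη, ← map_pow, hθ, map_neg, map_natCast]
  -- `η` is not in `F`
  have hηF : ∀ y : F, algebraMap F K y ≠ η := by
    intro y hy
    have h1 : y ^ 2 = -(d : F) := by
      apply (algebraMap F K).injective
      rw [map_pow, hy, hη2, map_neg, map_natCast]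
    obtain ⟨v⟩ : Nonempty (InfinitePlace F) := inferInstance
    have hv := IsTotallyReal.isReal v
    have h2 := congrArg (InfinitePlace.embedding_of_isReal hv) h1
    rw [map_pow, map_neg, map_natCast] at h2
    have h3 : (0 : ℝ) < d := by exact_mod_cast Nat.pos_of_ne_zero hd0
    nlinarith [sq_nonneg (InfinitePlace.embedding_of_isReal hv y)]
  -- the nontrivial automorphism
  have hfd : FiniteDimensional F K := Module.finite_of_finrank_pos (by omega)
  have hgal : IsGalois F K := by
    have := Algebra.IsQuadraticExtension.mk (R := F) (S := K) hFK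
    infer_instance
  have hcard : Nat.card (K ≃ₐ[F] K) = 2 := by rw [IsGalois.card_aut_eq_finrank, hFK]
  obtain ⟨c, hc⟩ : ∃ c : K ≃ₐ[F] K, c ≠ 1 := by
    have : Nontrivial (K ≃ₐ[F] K) := Finite.one_lt_card_iff_nontrivial.1 (by rw [hcard]; norm_num)
    exact exists_ne 1
  have hcη : c η = -η := by
    have h1 : c η ^ 2 = η ^ 2 := by rw [← map_pow, hη2, map_neg, map_natCast]
    rcases sq_eq_sq_iff_eq_or_eq_neg.1 h1 with h2 | h2
    · exfalso
      have h3 : ∀ g : K ≃ₐ[F] K, g η = η := by
        intro g
        by_cases hg : g = 1
        · rw [hg]; rfl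
        · have h4 : g = c := by
            classical
            by_contra hne
            have h5 : ({1, g, c} : Finset (K ≃ₐ[F] K)).card ≤ Nat.card (K ≃ₐ[F] K) := by
              rw [Nat.card_eq_fintype_card]
              exact Finset.card_le_univ _
            rw [hcard, Finset.card_insert_of_notMem (by
              rw [Finset.mem_insert, Finset.mem_singleton]
              push Not
              exact ⟨Ne.symm hg, Ne.symm hc⟩), Finset.card_insert_of_notMem (by
              rw [Finset.mem_singleton]
              exact hne), Finset.card_singleton] at h5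
            omega
          rw [h4, h2]
      have h4 : η ∈ (⊥ : IntermediateField F K) := (IsGalois.mem_bot_iff_fixed η).2 h3
      obtain ⟨y, hy⟩ := IntermediateField.mem_bot.1 h4
      exact hηF y hy
    · exact h2
  -- the type `S`
  obtain ⟨σ₀⟩ : Nonempty (K →+* ℂ_[2]) := inferInstance
  obtain ⟨σ₁, hσ₁⟩ : ∃ σ₁, σ₁ ∈ S := by
    by_cases h : σ₀ ∈ S
    · exact ⟨σ₀, h⟩
    · by_contra hne
      push Not at hne
      exact h ((hS c hc σ₀).2 (hne _))
  have hmem : ∀ σ : K →+* ℂ_[2], σ η = σ₁ η → σ ∈ S := by
    intro σ hσ
    rw [hS c hc σ]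
    intro h
    have h1 := hSk _ h _ hσ₁
    have h2 : (σ.comp (c : K →+* K)) (algebraMap k K θ) = -σ η := by
      show σ (c η) = -σ η
      rw [hcη, map_neg]
    rw [h2, ← hη, ← hσ] at h1
    have h3 : σ η = 0 := by
      have h4 : (2 : ℂ_[2]) * σ η = 0 := by linear_combination -h1
      exact (mul_eq_zero.1 h4).resolve_left two_ne_zero
    have h4 : η = 0 := (map_eq_zero σ).1 h3
    rw [h4, zero_pow two_ne_zero] at hη2
    have h5 : (d : K) = 0 := by linear_combination hη2
    exact hd0 (by exact_mod_cast h5)
  refine Pool.Agent.Z384.sgl (M := M) hd hk hθ ha hur (θ₀ := σ₁ η) ?_ hL x ?_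
  · rw [← map_pow, hη2, map_neg, map_natCast]
  · intro σ hσ
    apply hx
    apply hmem
    rw [← hσ, RingHom.comp_apply, hη, ← IsScalarTower.algebraMap_apply]

end Pool.Agent.Results.MP_fc6b1e_nt.TwoExtensionTowers
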